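import Pool.Agent.Q202.QT.NtMap
import Pool.Agent.Q202.QT.DensN
import Pool.Agent.Q202.QT.Ker
import Pool.Agent.Results.MP_b583a4_nt.OrdinaryScalar

/-!
# Ordinary two-dimensional representations with scalar reduction: most tuples of tame primes

Let `n ≥ 1` and `0 < δ ≤ 1`. For all primes `p` with `8 n ^ 3 6 ^ n < δ ^ n p` the following holds. For all primes `q₁ ≡ 1 mod p`
but a proportion of at most `δ`, for all primes `q₂ ≡ 1 mod p` but a proportion of at most `δ` (which may depend on `q₁`), …, for all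
primes `q_n ≡ 1 mod p` but a proportion of at most `δ`: every two-dimensional ordinary representation of `Gal(ℚbar/ℚ)` over a
complete discrete valuation ring with residue field of order `p` and any ramification index `e`, whose reduction is twice a
character and which is unramified outside `p`, `q₁`, …, `q_n` and primes not congruent to `1` modulo `p`, is reducible (if
`2 e < p - 1`, or if the inertia groups at the `q_i` act unipotently).

Proof. The criterion of the starting library (`Pool.Agent.Results.MP_b583a4_nt.OrdinaryScalar.result`) asks that systems of equations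
for `2 × 2` matrices `C`, `T_1`, …, `T_n` have no solution without common eigenvector. After conjugation such a solution has three
of the `T_i` with kernels spanned by `(1, 0)`, `(0, 1)`, `(1, 1)`, or all `T_i` are strictly upper or lower triangular. The linking
numbers of a tuple of primes which admit a given solution are the solutions of many linear equations, and a sum over all solutions
shows that the number of exceptional systems of linking numbers is at most `8 n ^ 3 3 ^ n / p` times the number of all systems. The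
linking numbers of a new prime with `p` and the preceding primes are jointly equidistributed up to scaling
(`Pool.Agent.Q202.QT.densN`, from the theorem of Chebotarev of helper401), and the theorem follows by counting the exceptional
completions of a system.
-/

set_option autoImplicit false

open NumberField Matrix IsLocalRing

namespace Pool.Agent.Results.MP_b583a4_nt.MostTuples

open Finset Filter
open Pool.Agent.Results.MP_b583a4_nt.OrdinaryScalar
open Pool.Agent.Q202.RT Pool.Agent.Q202.QT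
open Pool.Agent.W569.TG (lk)

/-- All ordinary representations with scalar reduction and residue field of order `p` whose tame ramification at primes congruent to
`1` modulo `p` is in `T` are reducible: for all finite sets `S` of primes `l ≠ p` whose members congruent to `1` modulo `p` are in
`T`, all complete discrete valuation rings `A` with residue field of order `p` in which `p` has valuation `e ≥ 1`, every continuous
`ρ : Gal(ℚbar/ℚ) → GL_2(A)`, unramified outside `S` and `p`, residually twice a character, such that `2 e < p - 1` or the inertia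
groups at the primes in `S` congruent to `1` modulo `p` act unipotently, and such that the decomposition group at a prime above
`p` preserves a line, preserves a line. -/
def OrdinaryReducible (p : ℕ) (T : Set ℕ) : Prop :=
  ∀ S : Finset ℕ, (∀ l ∈ S, l.Prime ∧ l ≠ p) → (∀ l ∈ S, p ∣ l - 1 → l ∈ T) →
    ∀ (A : Type) [CommRing A] [IsDomain A] [IsDiscreteValuationRing A] [IsAdicComplete (maximalIdeal A) A]
      [TopologicalSpace A], IsAdic (maximalIdeal A) → Nat.card (ResidueField A) = p →
    ∀ e : ℕ, 1 ≤ e → (p : A) ∈ maximalIdeal A ^ e → (p : A) ∉ maximalIdeal A ^ (e + 1) →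
    ∀ ρ : Gal(AlgebraicClosure ℚ/ℚ) →* GL (Fin 2) A, Continuous ρ → UnramifiedOutside p S ρ → ResiduallyScalar ρ →
      (2 * e < p - 1 ∨ UnipotentInertia p S ρ) →
      ∀ P : Ideal (𝓞 (AlgebraicClosure ℚ)), P.IsMaximal → (p : 𝓞 (AlgebraicClosure ℚ)) ∈ P →
        StableLine ρ (Decomposition P) → StableLine ρ Set.univ

open Classical in
/-- The primes `q ≤ x` with `p ∣ q - 1`. -/
noncomputable def Pr (p x : ℕ) : Finset ℕ := (range (x + 1)).filter fun q => q.Prime ∧ p ∣ q - 1

open Classical in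
/-- `Most p δ R n T`: for all primes `q₁ ≡ 1 mod p`, `q₁ ∉ T`, but a proportion of at most `δ`, for all primes `q₂ ≡ 1 mod p`,
`q₂ ∉ T ∪ {q₁}`, but a proportion of at most `δ`, …, for all primes `q_n ≡ 1 mod p`, `q_n ∉ T ∪ {q₁, …, q_{n-1}}`, but a proportion
of at most `δ`, the set `T ∪ {q₁, …, q_n}` has the property `R`. -/
def Most (p : ℕ) (δ : ℝ) (R : Set ℕ → Prop) : ℕ → Set ℕ → Prop
  | 0, T => R T
  | n + 1, T => ∀ ε : ℝ, 0 < ε → ∀ᶠ x : ℕ in atTop, (1 - δ - ε) * ((Pr p x).card : ℝ) ≤
      (((Pr p x).filter fun q => q ∉ T ∧ Most p δ R n (insert q T)).card : ℝ)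

theorem Pr_eq (p x : ℕ) [Fact p.Prime] : Pr p x = P1 p x := by
  ext l
  rw [mem_P1, Pr, mem_filter, mem_range]
  constructor
  · rintro ⟨h1, h2, h3⟩
    exact ⟨by omega, h2, h3⟩
  · rintro ⟨h1, h2, h3⟩
    exact ⟨by omega, h2, h3⟩

section
variable {p : ℕ} [Fact p.Prime]

theorem linking_lk {K : Type} [Field K] [CharP K p] (χ : ∀ j : ℕ, (ZMod j)ˣ →* Multiplicative (ZMod p)) (j q : ℕ) :
    linking K j q (χ j) = ZMod.castHom (dvd_refl p) K (lk χ q j) := by
  have : NeZero p := ⟨(Fact.out : p.Prime).ne_zero⟩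
  unfold linking lk
  split_ifs with h
  · rw [ZMod.castHom_apply, ZMod.natCast_val]
  · rw [map_zero]

theorem notuple {K : Type} [Field K] {S : Finset ℕ} {χ : ∀ j : ℕ, (ZMod j)ˣ →* Multiplicative (ZMod p)} {ε : K}
    (N : Pool.Agent.TH831.OE.NTo (Tame p S) (fun l => (((l - 1) / p : ℕ) : K)) (fun l j => linking K j l (χ j))
      (fun j => linking K j p (χ j)) ε) : NoTuple K p S χ ε := by
  intro C T hC hT hrel ⟨v, hv0, hv1, hv2⟩
  obtain ⟨w, hw0, hw1, hw2⟩ := N C T hC hT hrel ⟨v, hv0, (eigen_iff hv0).1 hv1, (eigen_iff hv0).1 hv2⟩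
  exact ⟨w, hw0, (eigen_iff hw0).2 hw1, fun l hl => ⟨0, by rw [hw2 l hl, zero_smul]⟩⟩

/-- the linking numbers -/
noncomputable def dat (χ : ∀ j : ℕ, (ZMod j)ˣ →* Multiplicative (ZMod p)) {n : ℕ} (l : Fin n → ℕ) : Dat p n :=
  (fun i => (lv p (l i), fun j => lk χ (l i) (l j)), fun j => lk χ p (l j))

theorem good_of (hp2 : p ≠ 2) (χ : ∀ j : ℕ, (ZMod j)ˣ →* Multiplicative (ZMod p)) (hχ : Kr χ) {n : ℕ} (l : Fin n → ℕ)
    (hli : Function.Injective l) (hG : ¬ BadD (dat χ l)) :
    (∀ q ∈ Set.range l, ¬ p ^ 2 ∣ q - 1) ∧ OrdinaryReducible p (Set.range l) := by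
  have hp : p.Prime := Fact.out
  unfold BadD at hG
  push Not at hG
  obtain ⟨g1, g2, g3, g4⟩ := hG
  have hsq : ∀ q ∈ Set.range l, ¬ p ^ 2 ∣ q - 1 := by
    rintro q ⟨i, rfl⟩ h
    apply g1 i
    show lv p (l i) = 0
    unfold lv
    rw [ZMod.natCast_eq_zero_iff]
    obtain ⟨m, hm⟩ := h
    refine ⟨m, ?_⟩
    rw [hm, pow_two, mul_assoc, Nat.mul_div_cancel_left _ hp.pos]
  refine ⟨hsq, ?_⟩
  intro S hS hT A _ _ _ _ _ hA hcard e he h0 h0' ρ hρ hur hres hU P hP hpP hloc
  have hpm : (p : A) ∈ maximalIdeal A := Ideal.pow_le_self (by omega) h0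
  have hchar : CharP (ResidueField A) p := Pool.Agent.TH831.OE.charP_res hp hpm
  have hfin : Finite (ResidueField A) := Nat.finite_of_card_ne_zero (by rw [hcard]; exact hp.ne_zero)
  have hS' : ∀ a ∈ S, a.Prime ∧ a ≠ p ∧ ¬ p ^ 2 ∣ a - 1 := by
    intro a ha
    refine ⟨(hS a ha).1, (hS a ha).2, fun h => ?_⟩
    exact hsq a (hT a ha ((dvd_pow_self p two_ne_zero).trans h)) h
  set φ := ZMod.castHom (dvd_refl p) (ResidueField A) with hφ
  have hbij : Function.Bijective φ := by
    have : Fintype (ResidueField A) := Fintype.ofFinite _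
    exact ZMod.castHom_bijective _ (by rw [← Nat.card_eq_fintype_card, hcard])
  set E : ZMod p ≃+* ResidueField A := RingEquiv.ofBijective φ hbij with hE
  have hEφ : ∀ x, E x = φ x := fun _ => rfl
  have eu : (fun l : ℕ => (((l - 1) / p : ℕ) : ResidueField A)) = fun l => φ (lv p l) := by
    funext a
    unfold lv
    rw [map_natCast]
  have el : (fun l j : ℕ => linking (ResidueField A) j l (χ j)) = fun l j => φ (lk χ l j) := by
    funext a j
    exact linking_lk χ j a
  have eb : (fun j : ℕ => linking (ResidueField A) j p (χ j)) = fun j => φ (lk χ p j) := by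
    funext j
    exact linking_lk χ j p
  have hsub : Tame p S ⊆ univ.image l := by
    intro a ha
    obtain ⟨i, hi⟩ := hT a (mem_filter.1 ha).1 (mem_filter.1 ha).2
    exact mem_image.2 ⟨i, mem_univ i, hi⟩
  have hN1 : NoTuple (ResidueField A) p S χ 1 := by
    apply notuple
    rw [eu, el, eb]
    refine nto_mono hsub (nto_of_nti hli (u := fun l => φ (lv p l)) (L := fun l j => φ (lk χ l j)) (b := fun j => φ (lk χ p j)) ?_)
    have := nti_map E g4
    rw [map_one] at this
    exact this
  have hN0 : NoTuple (ResidueField A) p S χ 0 := by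
    apply notuple
    rw [eu, el, eb]
    refine nto_mono hsub (nto_of_nti hli (u := fun l => φ (lv p l)) (L := fun l j => φ (lk χ l j)) (b := fun j => φ (lk χ p j)) ?_)
    have := nti_map E g3
    rw [map_zero] at this
    exact this
  have hP' : NoPair (ResidueField A) p S χ := by
    have h : NP (Tame p S) (fun l => (((l - 1) / p : ℕ) : ResidueField A)) (fun l j => linking (ResidueField A) j l (χ j))
        (fun j => linking (ResidueField A) j p (χ j)) := by
      rw [eu, el, eb]
      exact np_mono hsub (np_of_npi hli (u := fun l => φ (lv p l)) (L := fun l j => φ (lk χ l j))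
        (b := fun j => φ (lk χ p j)) (npi_map E g2))
    exact h
  exact OrdinaryScalar.result p hp2 S hS' A hA hfin e he h0 h0' χ
    (fun a ha => (hχ a (hS a (mem_filter.1 ha).1).1 (mem_filter.1 ha).2).1)
    (Or.inr ⟨hP', hN1, Or.inr hN0⟩) ρ hρ hur hres hU P hP hpP hloc

theorem lk_self (χ : ∀ j : ℕ, (ZMod j)ˣ →* Multiplicative (ZMod p)) {q : ℕ} (hq : q.Prime) : lk χ q q = 0 := by
  unfold lk
  rw [dif_neg]
  intro h
  exact hq.one_lt.ne' ((Nat.coprime_self q).1 h)

theorem dat_cons (χ : ∀ j : ℕ, (ZMod j)ˣ →* Multiplicative (ZMod p)) {n : ℕ} (l : Fin n → ℕ) {q : ℕ} (hq : q.Prime) :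
    dat χ (Fin.cons (α := fun _ => ℕ) q l) = ext (dat χ l) (vec χ (Fin.cons p l) q) (Fin.cons (lv p q) fun i => lk χ q (l i)) := by
  refine Prod.ext (funext fun i => ?_) (funext fun j => ?_)
  · refine Fin.cases ?_ (fun i' => ?_) i
    · refine Prod.ext rfl (funext fun j => ?_)
      refine Fin.cases ?_ (fun j' => ?_) j
      · exact lk_self χ hq
      · rfl
    · refine Prod.ext rfl (funext fun j => ?_)
      refine Fin.cases ?_ (fun j' => ?_) j
      · rfl
      · rfl
  · refine Fin.cases ?_ (fun j' => ?_) j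
    · rfl
    · rfl

theorem most_of (hp2 : p ≠ 2) (χ : ∀ j : ℕ, (ZMod j)ˣ →* Multiplicative (ZMod p)) (hχ : Kr χ) {η δ : ℝ} (hη : 0 < η)
    (hδ : η + 1 / p ≤ δ) (m : ℕ) : ∀ (k : ℕ) (l : Fin k → ℕ), (∀ i, (l i).Prime) → (∀ i, p ∣ l i - 1) → Function.Injective l →
      GdN η m k (dat χ l) →
      Most p δ (fun T => (∀ q ∈ T, ¬ p ^ 2 ∣ q - 1) ∧ OrdinaryReducible p T) m (Set.range l) := by
  classical
  have hp : p.Prime := Fact.out
  have hp0 : (0 : ℝ) < p := by exact_mod_cast hp.pos
  have hp1 : (1 : ℝ) ≤ p := by exact_mod_cast hp.one_lt.le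
  induction m with
  | zero =>
    intro k l hl hpl hli hG
    exact good_of hp2 χ hχ l hli (gd_zero hG)
  | succ m ih =>
    intro k l hl hpl hli hG ε hε
    have hst := gd_step hη hG
    obtain ⟨Good, hGood⟩ : ∃ G : (Fin (k + 1) → ZMod p) → (Fin (k + 1) → ZMod p) → Prop,
        G = fun w s => w ≠ 0 ∧ GdN η m (k + 1) (ext (dat χ l) w s) := ⟨_, rfl⟩
    have hst' : (1 - η) * ((p : ℝ) ^ (k + 1) * (p : ℝ) ^ (k + 1)) - (p : ℝ) ^ (k + 1) ≤
        ((∑ w : Fin (k + 1) → ZMod p, ((univ : Finset (Fin (k + 1) → ZMod p)).filter fun s => Good w s).card : ℕ) : ℝ) := by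
      subst hGood
      convert hst
    have hd := densN (p := p) hp2 χ hχ l hl hpl hli Good
      (fun w s h => by rw [hGood] at h; exact h.1) (fun w s c hc h => by
        rw [hGood] at h ⊢
        refine ⟨fun h0 => h.1 (by
          funext j
          exact (mul_eq_zero.1 (congrFun h0 j)).resolve_left hc), ?_⟩
        unfold GdN
        rw [Nb_wsc m k hc]
        exact h.2) (1 - δ) (by
        have : (0 : ℝ) < 1 / p := by positivity
        linarith) (by
        rw [le_div_iff₀ (by
          have : 0 < Fintype.card (Fin (k + 1) → ZMod p) := Fintype.card_pos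
          positivity), Fintype.card_fun, ZMod.card, Fintype.card_fin]
        refine le_trans ?_ (hst'.trans (le_of_eq (by congr!)))
        push_cast
        have h1 : (0 : ℝ) < (p : ℝ) ^ (k + 1) := by positivity
        have h2 : (p : ℝ) ^ (k + 1) * 1 ≤ (p : ℝ) ^ (k + 1) * ((1 / p) * (p : ℝ) ^ (k + 1)) := by
          refine mul_le_mul_of_nonneg_left ?_ h1.le
          rw [pow_succ, one_div, mul_comm ((p : ℝ) ^ k), inv_mul_cancel_left₀ hp0.ne']
          exact one_le_pow₀ hp1
        have h3 : (1 - δ) * ((p : ℝ) ^ (k + 1) * (p : ℝ) ^ (k + 1)) ≤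
            (1 - η - 1 / p) * ((p : ℝ) ^ (k + 1) * (p : ℝ) ^ (k + 1)) :=
          mul_le_mul_of_nonneg_right (by linarith) (by positivity)
        linarith) ε hε
    filter_upwards [hd] with x hx
    rw [Pr_eq]
    refine le_trans hx (Nat.cast_le.2 (card_le_card ?_))
    intro q hq
    obtain ⟨h1, h2, h34⟩ := (@Finset.mem_filter _ _ _ _ _).1 hq
    rw [hGood] at h34
    obtain ⟨h3, h4⟩ := h34
    obtain ⟨-, hqp, hpq⟩ := mem_P1.1 h1
    simp only [Finset.mem_filter]
    refine ⟨h1, fun ⟨i, hi⟩ => h2 i hi.symm, ?_⟩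
    rw [← Fin.range_cons]
    refine ih (k + 1) (Fin.cons q l) ?_ ?_ ?_ ?_
    · intro i
      refine Fin.cases ?_ (fun j => ?_) i
      · exact hqp
      · exact hl j
    · intro i
      refine Fin.cases ?_ (fun j => ?_) i
      · exact hpq
      · exact hpl j
    · rw [Fin.cons_injective_iff]
      exact ⟨fun ⟨i, hi⟩ => h2 i hi.symm, hli⟩
    · rw [dat_cons χ l hqp]
      exact h4

end

/-- **Ordinary representations with scalar reduction, most tuples of tame primes.** -/
theorem result (n : ℕ) (hn : 1 ≤ n) (δ : ℝ) (hδ : 0 < δ) (hδ1 : δ ≤ 1) (p : ℕ) [Fact p.Prime]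
    (hp : 8 * (n : ℝ) ^ 3 * 6 ^ n < δ ^ n * p) :
    Most p δ (fun T => (∀ q ∈ T, ¬ p ^ 2 ∣ q - 1) ∧ OrdinaryReducible p T) n ∅ := by
  have hpp : p.Prime := Fact.out
  have hp0 : (0 : ℝ) < p := by exact_mod_cast hpp.pos
  have hn1 : (1 : ℝ) ≤ n := by exact_mod_cast hn
  -- `δ ^ n ≤ δ`
  have h1 : δ ^ n ≤ δ := by
    calc δ ^ n ≤ δ ^ 1 := pow_le_pow_of_le_one hδ.le hδ1 hn
      _ = δ := pow_one δ
  have h2 : (48 : ℝ) ≤ 8 * (n : ℝ) ^ 3 * 6 ^ n := by
    have h3 : (1 : ℝ) ≤ (n : ℝ) ^ 3 := one_le_pow₀ hn1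
    have h4 : (6 : ℝ) ≤ 6 ^ n := by
      calc (6 : ℝ) = 6 ^ 1 := (pow_one 6).symm
        _ ≤ 6 ^ n := pow_le_pow_right₀ (by norm_num) hn
    nlinarith
  have h5 : (48 : ℝ) < δ * p := lt_of_le_of_lt h2 (lt_of_lt_of_le hp (mul_le_mul_of_nonneg_right h1 hp0.le))
  have hp48 : (48 : ℝ) < p := lt_of_lt_of_le h5 (by nlinarith)
  have hp2 : p ≠ 2 := by
    rintro rfl
    norm_num at hp48
  obtain ⟨χ, hχ, -⟩ := extend (p := p) (fun _ => 1) ∅ (fun j hj => absurd hj (Set.notMem_empty j))
  have hG : GdN (δ / 2) n 0 (dat χ (Fin.elim0 : Fin 0 → ℕ)) := by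
    refine gd_init hp2 ?_ _
    have h6 : (δ / 2) ^ n * p * 2 ^ n = δ ^ n * p := by
      rw [div_pow]
      field_simp
    have h7 : 8 * (n : ℝ) ^ 3 * 3 ^ n * 2 ^ n = 8 * (n : ℝ) ^ 3 * 6 ^ n := by
      rw [mul_assoc, ← mul_pow]
      norm_num
    have h8 : 8 * (n : ℝ) ^ 3 * 3 ^ n * 2 ^ n < (δ / 2) ^ n * p * 2 ^ n := by
      rw [h6, h7]
      exact hp
    exact lt_of_mul_lt_mul_right h8 (by positivity)
  have := most_of hp2 χ hχ (η := δ / 2) (δ := δ) (by positivity) (by
    have : 1 / (p : ℝ) ≤ δ / 2 := by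
      rw [div_le_div_iff₀ hp0 (by norm_num)]
      linarith
    linarith) n 0 (Fin.elim0 : Fin 0 → ℕ) (fun i => i.elim0) (fun i => i.elim0) (fun i => i.elim0) hG
  rwa [Set.range_eq_empty] at this

end Pool.Agent.Results.MP_b583a4_nt.MostTuples
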