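import Pool.Agent.Q202.RT.Two
import Pool.Agent.Results.MP_b583a4_nt.OrdinaryScalar

/-!
# Ordinary two-dimensional representations with scalar reduction: most primes

Let `p` be an odd prime and let `k` be a prime with `p ∣ k - 1`, `p ^ 2 ∤ k - 1`. For at least the proportion `(1 - 1 / p) ^ 2` of
the primes `l` with `p ∣ l - 1`, `p ^ 2 ∤ l - 1` - and for at least the proportion `1 - 1 / p` if `p` is not a `p`-th power modulo
`k` - every two-dimensional ordinary representation of `Gal(ℚbar/ℚ)` over the ring of integers of a finite extension of `ℚ_p`, of any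
ramification index `e`, unramified outside `p`, `k`, `l` and primes not congruent to `1` modulo `p`, whose reduction is twice a
character, is reducible (if `2 e < p - 1`, or if the inertia groups at `k` and `l` act unipotently).

Proof: the criterion of the starting library (`Pool.Agent.Results.MP_b583a4_nt.OrdinaryScalar.result`), and a new density theorem
(`Pool.Agent.Q202.RT.bad_pair`, `bad_pair2`): in each residue class of `l` modulo `p ^ 2 k` the determinant of the criterion
vanishes if and only if an explicit number `k ^ s p ^ t` is a `p`-th power modulo `l`; the theorem of Chebotarev (helper401) applies.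
-/

set_option autoImplicit false

open NumberField Matrix IsLocalRing

namespace Pool.Agent.Results.MP_b583a4_nt.OrdinaryMostPrimes

open Finset Filter
open Pool.Agent.Results.MP_b583a4_nt.OrdinaryScalar
open Pool.Agent.Q202.RT
open Pool.Agent.W569.TG (lk)
open Pool.Agent.Q315.FM (clp mem_clp)

/-- All ordinary representations with scalar reduction whose tame ramification at primes congruent to `1` modulo `p` is in `T` are
reducible: for all finite sets `S` of primes `l ≠ p` with `p ^ 2 ∤ l - 1` whose members congruent to `1` modulo `p` are in `T`, all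
complete discrete valuation rings `A` with finite residue field in which `p` has valuation `e`, every continuous
`ρ : Gal(ℚbar/ℚ) → GL_2(A)`, unramified outside `S` and `p`, residually twice a character, such that `2 e < p - 1` or the inertia
groups at the primes in `S` congruent to `1` modulo `p` act unipotently, and such that the decomposition group at a prime above
`p` preserves a line, preserves a line. -/
def OrdinaryReducible (p : ℕ) (T : Set ℕ) : Prop :=
  ∀ S : Finset ℕ, (∀ l ∈ S, l.Prime ∧ l ≠ p ∧ ¬ p ^ 2 ∣ l - 1) → (∀ l ∈ S, p ∣ l - 1 → l ∈ T) →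
    ∀ (A : Type) [CommRing A] [IsDomain A] [IsDiscreteValuationRing A] [IsAdicComplete (maximalIdeal A) A]
      [TopologicalSpace A], IsAdic (maximalIdeal A) → Finite (ResidueField A) →
    ∀ e : ℕ, 1 ≤ e → (p : A) ∈ maximalIdeal A ^ e → (p : A) ∉ maximalIdeal A ^ (e + 1) →
    ∀ ρ : Gal(AlgebraicClosure ℚ/ℚ) →* GL (Fin 2) A, Continuous ρ → UnramifiedOutside p S ρ → ResiduallyScalar ρ →
      (2 * e < p - 1 ∨ UnipotentInertia p S ρ) →
      ∀ P : Ideal (𝓞 (AlgebraicClosure ℚ)), P.IsMaximal → (p : 𝓞 (AlgebraicClosure ℚ)) ∈ P →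
        StableLine ρ (Decomposition P) → StableLine ρ Set.univ

open Classical in
/-- The primes `l ≤ x` with `p ∣ l - 1` and `p ^ 2 ∤ l - 1`. -/
noncomputable def Pr (p x : ℕ) : Finset ℕ := (range (x + 1)).filter fun l => l.Prime ∧ p ∣ l - 1 ∧ ¬ p ^ 2 ∣ l - 1

theorem Pr_eq (p x : ℕ) : Pr p x = clp p 1 x := by
  ext l
  rw [mem_clp, Pr, mem_filter, mem_range, pow_one]
  constructor
  · rintro ⟨h1, h2, h3, h4⟩
    exact ⟨by omega, h2, h3, h4⟩
  · rintro ⟨h1, h2, h3, h4⟩
    exact ⟨by omega, h2, h3, h4⟩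

section
variable {p : ℕ} [Fact p.Prime]

theorem linking_lk {K : Type} [Field K] [CharP K p] (χ : ∀ j : ℕ, (ZMod j)ˣ →* Multiplicative (ZMod p)) (j q : ℕ) :
    linking K j q (χ j) = ZMod.castHom (dvd_refl p) K (lk χ q j) := by
  have : NeZero p := ⟨(Fact.out : p.Prime).ne_zero⟩
  unfold linking lk
  split_ifs with h
  · rw [ZMod.castHom_apply, ZMod.natCast_val]
  · rw [map_zero]

theorem good_of (hp2 : p ≠ 2) (χ : ∀ j : ℕ, (ZMod j)ˣ →* Multiplicative (ZMod p)) (hχ : Kr χ) (k l : ℕ)
    (h1 : lk χ p l ≠ 0 ∨ lk χ k l ≠ 0) (h2 : lk χ p k ≠ 0 ∨ lk χ l k ≠ 0) (h3 : Dt χ k l ≠ 0) :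
    OrdinaryReducible p {k, l} := by
  intro S hS hT A _ _ _ _ _ hA hfin e he h0 h0' ρ hρ hur hres hU P hP hpP hloc
  have hp : p.Prime := Fact.out
  have hpm : (p : A) ∈ maximalIdeal A := Ideal.pow_le_self (by omega) h0
  have hchar : CharP (ResidueField A) p := Pool.Agent.TH831.OE.charP_res hp hpm
  have hinj : Function.Injective (ZMod.castHom (dvd_refl p) (ResidueField A)) := (ZMod.castHom (dvd_refl p) _).injective
  have hne : ∀ a b : ℕ, lk χ a b ≠ 0 → linking (ResidueField A) b a (χ b) ≠ 0 := by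
    intro a b h h'
    rw [linking_lk] at h'
    exact h (hinj (by rw [h', map_zero]))
  have hlv : ∀ a : ℕ, (((a - 1) / p : ℕ) : ResidueField A) = ZMod.castHom (dvd_refl p) (ResidueField A) (lv p a) := by
    intro a
    unfold lv
    rw [map_natCast]
  have hDt : ∀ a b : ℕ, Dt χ a b ≠ 0 → (((a - 1) / p : ℕ) : ResidueField A) * linking (ResidueField A) a b (χ a) *
      linking (ResidueField A) b p (χ b) ≠ (((b - 1) / p : ℕ) : ResidueField A) * linking (ResidueField A) b a (χ b) *
        linking (ResidueField A) a p (χ a) := by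
    intro a b h h'
    rw [linking_lk, linking_lk, linking_lk, linking_lk, hlv, hlv, ← map_mul, ← map_mul, ← map_mul, ← map_mul] at h'
    apply h
    have := hinj h'
    unfold Dt
    linear_combination -this
  have hDt' : Dt χ l k ≠ 0 := by
    intro h
    apply h3
    unfold Dt at h ⊢
    linear_combination -h
  have hTk : ∀ a ∈ Tame p S, a = k ∨ a = l := fun a ha => hT a (mem_filter.1 ha).1 (mem_filter.1 ha).2
  refine result p hp2 S hS A hA hfin e he h0 h0' χ (fun a ha => (hχ a (hS a (mem_filter.1 ha).1).1 (mem_filter.1 ha).2).1)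
    (Or.inl ⟨?_, ?_⟩) ρ hρ hur hres hU P hP hpP hloc
  · have : Tame p S ⊆ {k, l} := by
      intro a ha
      rcases hTk a ha with h | h <;> simp [h]
    exact (card_le_card this).trans card_le_two
  · intro a ha b hb hab
    rcases hTk a ha with rfl | rfl <;> rcases hTk b hb with rfl | rfl
    · exact absurd rfl hab
    · refine ⟨?_, Or.inr (hDt _ _ h3)⟩
      rcases h1 with h | h
      · exact Or.inl (hne _ _ h)
      · exact Or.inr (hne _ _ h)
    · refine ⟨?_, Or.inr (hDt _ _ hDt')⟩
      rcases h2 with h | h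
      · exact Or.inl (hne _ _ h)
      · exact Or.inr (hne _ _ h)
    · exact absurd rfl hab

omit [Fact p.Prime] in
open Classical in
theorem count (k : ℕ) (B : ℕ → Prop) (δ ε : ℝ)
    (hB : ∀ l, l.Prime → ¬ B l → OrdinaryReducible p {k, l})
    (h : ∀ᶠ x : ℕ in atTop, (((clp p 1 x).filter B).card : ℝ) ≤ (1 - δ + ε) * ((clp p 1 x).card : ℝ)) :
    ∀ᶠ x : ℕ in atTop, (δ - ε) * ((Pr p x).card : ℝ) ≤ (((Pr p x).filter fun l => OrdinaryReducible p {k, l}).card : ℝ) := by
  filter_upwards [h] with x hx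
  rw [Pr_eq]
  have h1 : (clp p 1 x).card ≤ ((clp p 1 x).filter B).card + ((clp p 1 x).filter fun l => OrdinaryReducible p {k, l}).card := by
    have : clp p 1 x ⊆ ((clp p 1 x).filter B) ∪ ((clp p 1 x).filter fun l => OrdinaryReducible p {k, l}) := by
      intro l hl
      by_cases hb : B l
      · exact mem_union_left _ (mem_filter.2 ⟨hl, hb⟩)
      · exact mem_union_right _ (mem_filter.2 ⟨hl, hB l (mem_clp.1 hl).2.1 hb⟩)
    exact (card_le_card this).trans (card_union_le _ _)
  have h2 : ((clp p 1 x).card : ℝ) ≤ (((clp p 1 x).filter B).card : ℝ) +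
      (((clp p 1 x).filter fun l => OrdinaryReducible p {k, l}).card : ℝ) := by exact_mod_cast h1
  linarith

end

open Classical in
/-- **Ordinary representations with scalar reduction, for most primes.** -/
theorem result (p : ℕ) [Fact p.Prime] (hp2 : p ≠ 2) (k : ℕ) (hk : k.Prime) (hpk : p ∣ k - 1) (hpk2 : ¬ p ^ 2 ∣ k - 1)
    (ε : ℝ) (hε : 0 < ε) :
    (∀ᶠ x : ℕ in atTop, ((1 - 1 / (p : ℝ)) ^ 2 - ε) * ((Pr p x).card : ℝ) ≤
      (((Pr p x).filter fun l => OrdinaryReducible p {k, l}).card : ℝ)) ∧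
    ((¬ ∃ y : ZMod k, y ^ p = (p : ZMod k)) → ∀ᶠ x : ℕ in atTop, (1 - 1 / (p : ℝ) - ε) * ((Pr p x).card : ℝ) ≤
      (((Pr p x).filter fun l => OrdinaryReducible p {k, l}).card : ℝ)) := by
  have hp : p.Prime := Fact.out
  obtain ⟨χ, hχ⟩ := Pool.Agent.TH146.FM.exists_chi p
  have hχ' : Kr χ := hχ
  have hpk' : p ≠ k := by
    rintro rfl
    have := Nat.le_of_dvd (by have := hk.two_le; omega) hpk
    have := hk.two_le
    omega
  have hiff : lk χ p k = 0 ↔ ∃ y : ZMod k, y ^ p = (p : ZMod k) :=
    Pool.Agent.TH146.FM.lk_eq_zero_iff hk hpk hp hpk' (hχ k hk hpk).2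
  have main : lk χ p k ≠ 0 → ∀ᶠ x : ℕ in atTop, (1 - 1 / (p : ℝ) - ε) * ((Pr p x).card : ℝ) ≤
      (((Pr p x).filter fun l => OrdinaryReducible p {k, l}).card : ℝ) := by
    intro h
    have h1 := bad_pair hp2 χ hχ' k hk hpk h ε hε
    refine count k (fun l => Dt χ k l = 0) (1 - 1 / (p : ℝ)) ε (fun l _ hl => ?_) ?_
    · refine good_of hp2 χ hχ' k l ?_ (Or.inl h) hl
      by_contra hcon
      push Not at hcon
      apply hl
      unfold Dt
      rw [hcon.1, hcon.2]
      ring
    · have he : 1 - (1 - 1 / (p : ℝ)) + ε = 1 / (p : ℝ) + ε := by ring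
      rw [he]
      filter_upwards [h1] with x hx
      convert hx
  refine ⟨?_, fun h => main fun h' => h (hiff.1 h')⟩
  by_cases h : lk χ p k = 0
  · refine count k (fun l => lk χ l k = 0 ∨ lk χ p l = 0) ((1 - 1 / (p : ℝ)) ^ 2) ε (fun l hl hb => ?_) ?_
    · push Not at hb
      refine good_of hp2 χ hχ' k l (Or.inl hb.2) (Or.inr hb.1) ?_
      unfold Dt
      rw [h, mul_zero, zero_mul, zero_sub, neg_ne_zero]
      exact mul_ne_zero (mul_ne_zero (lv_ne_zero hpk hpk2) hb.1) hb.2
    · filter_upwards [bad_pair2 hp2 χ hχ' k hk hpk ε hε] with x hx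
      convert hx
  · filter_upwards [main h] with x hx
    refine le_trans (mul_le_mul_of_nonneg_right ?_ (Nat.cast_nonneg _)) hx
    have h1 : (1 : ℝ) ≤ p := by exact_mod_cast hp.one_le
    have h2 : (0 : ℝ) ≤ 1 - 1 / (p : ℝ) := by
      rw [sub_nonneg, div_le_one (by linarith)]
      exact h1
    have h3 : 1 - 1 / (p : ℝ) ≤ 1 := by
      have : 0 ≤ 1 / (p : ℝ) := by positivity
      linarith
    nlinarith

end Pool.Agent.Results.MP_b583a4_nt.OrdinaryMostPrimes
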