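import Pool.Agent.Q202.QT.Cnt3
import Pool.Agent.Q202.QT.Ker
import Pool.Agent.Results.MP_b583a4_nt.OrdinaryScalar

/-!
# Ordinary two-dimensional representations with scalar reduction: three tame primes

Let `p ≥ 7` be a prime and let `k`, `l` be different primes with `p ∣ k - 1`, `p ∣ l - 1`, `p ^ 2 ∤ k - 1`, `p ^ 2 ∤ l - 1`, such
that `u_k χ_k(l) χ_l(p) ≠ u_l χ_l(k) χ_k(p)`, where `u_j = (j - 1) / p`. For at least the proportion
`(p - 1) ^ 2 (p - 2) (p - 3) (p - 5) / p ^ 5` of all primes `q` congruent to `1` modulo `p` (it tends to `1` for large `p`) the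
following holds: every two-dimensional ordinary representation of `Gal(ℚbar/ℚ)` over the ring of integers of a finite extension of
`ℚ_p`, of any ramification index `e`, whose reduction is twice a character and which is unramified outside `p`, `k`, `l`, `q` and
primes not congruent to `1` modulo `p`, is reducible (if `2 e < p - 1`, or if the inertia groups at `k`, `l`, `q` act unipotently).

Proof. The criterion of the starting library (`Pool.Agent.Results.MP_b583a4_nt.OrdinaryScalar.result`) asks that systems of equations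
for `2 × 2` matrices `C`, `T_k`, `T_l`, `T_q` have no solution without common eigenvector. For three primes we solve these systems
(`Pool.Agent.Q202.QT.core1`, `Pool.Agent.Q202.QT.core0`): up to conjugation there is at most one such solution, it is given by
explicit formulas, and it is excluded if a quadratic polynomial of the power residue symbol `χ_q(p)`, with coefficients which are
polynomials in the other linking numbers, does not vanish. The vector of the numbers `χ_q(p)`, `χ_q(k)`, `χ_q(l)` up to multiples and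
the vector of `u_q`, `χ_k(q)`, `χ_l(q)` are jointly equidistributed (`Pool.Agent.Q202.QT.joint`, from the theorem of Chebotarev of
helper401), and we count the pairs of vectors for which all conditions hold.
-/

set_option autoImplicit false

open NumberField Matrix IsLocalRing

namespace Pool.Agent.Results.MP_b583a4_nt.OrdinaryThreePrimes

open Finset Filter
open Pool.Agent.Results.MP_b583a4_nt.OrdinaryScalar
open Pool.Agent.Q202.RT Pool.Agent.Q202.QT
open Pool.Agent.W569.TG (lk)

/-- All ordinary representations with scalar reduction whose tame ramification at primes congruent to `1` modulo `p` is in `T` are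
reducible: for all finite sets `S` of primes `l ≠ p` with `p ^ 2 ∤ l - 1` whose members congruent to `1` modulo `p` are in `T`, all
complete discrete valuation rings `A` with finite residue field in which `p` has valuation `e ≥ 1`, every continuous
`ρ : Gal(ℚbar/ℚ) → GL_2(A)`, unramified outside `S` and `p`, residually twice a character, such that `2 e < p - 1` or the inertia
groups at the primes in `S` congruent to `1` modulo `p` act unipotently, and such that the decomposition group at a prime above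
`p` preserves a line, preserves a line. -/
def OrdinaryReducible (p : ℕ) (T : Set ℕ) : Prop :=
  ∀ S : Finset ℕ, (∀ l ∈ S, l.Prime ∧ l ≠ p ∧ ¬ p ^ 2 ∣ l - 1) → (∀ l ∈ S, p ∣ l - 1 → l ∈ T) →
    ∀ (A : Type) [CommRing A] [IsDomain A] [IsDiscreteValuationRing A] [IsAdicComplete (maximalIdeal A) A]
      [TopologicalSpace A], IsAdic (maximalIdeal A) → Finite (ResidueField A) →
    ∀ e : ℕ, 1 ≤ e → (p : A) ∈ maximalIdeal A ^ e → (p : A) ∉ maximalIdeal A ^ (e + 1) →
    ∀ ρ : Gal(AlgebraicClosure ℚ/ℚ) →* GL (Fin 2) A, Continuous ρ → UnramifiedOutside p S ρ → ResiduallyScalar ρ →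
      (2 * e < p - 1 ∨ UnipotentInertia p S ρ) →
      ∀ P : Ideal (𝓞 (AlgebraicClosure ℚ)), P.IsMaximal → (p : 𝓞 (AlgebraicClosure ℚ)) ∈ P →
        StableLine ρ (Decomposition P) → StableLine ρ Set.univ

open Classical in
/-- The primes `q ≤ x` with `p ∣ q - 1`. -/
noncomputable def Pr (p x : ℕ) : Finset ℕ := (range (x + 1)).filter fun q => q.Prime ∧ p ∣ q - 1

theorem Pr_eq (p x : ℕ) [Fact p.Prime] : Pr p x = P1 p x := by
  ext l
  rw [mem_P1, Pr, mem_filter, mem_range]
  constructor
  · rintro ⟨h1, h2, h3⟩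
    exact ⟨by omega, h2, h3⟩
  · rintro ⟨h1, h2, h3⟩
    exact ⟨by omega, h2, h3⟩

section
variable {p : ℕ} [Fact p.Prime]

theorem linking_lk {K : Type} [Field K] [CharP K p] (χ : ∀ j : ℕ, (ZMod j)ˣ →* Multiplicative (ZMod p)) (j q : ℕ) :
    linking K j q (χ j) = ZMod.castHom (dvd_refl p) K (lk χ q j) := by
  have : NeZero p := ⟨(Fact.out : p.Prime).ne_zero⟩
  unfold linking lk
  split_ifs with h
  · rw [ZMod.castHom_apply, ZMod.natCast_val]
  · rw [map_zero]

theorem lk_of_eq' {χ χ' : ∀ j : ℕ, (ZMod j)ˣ →* Multiplicative (ZMod p)} {j q : ℕ} (h : χ' j = χ j) :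
    lk χ' q j = linking (ZMod p) j q (χ j) := by
  rw [linking_lk χ j q, ZMod.castHom_self, RingHom.id_apply]
  unfold lk
  rw [h]

theorem map_QQ {K L : Type} [Field K] [Field L] (φ : K →+* L) (a b c d e f B1 B2 B3 : K) :
    φ (QQ a b c d e f B1 B2 B3) = QQ (φ a) (φ b) (φ c) (φ d) (φ e) (φ f) (φ B1) (φ B2) (φ B3) := by
  unfold QQ MM N1 N2
  simp only [map_sub, map_add, map_mul, map_pow, map_ofNat]

theorem notuple {K : Type} [Field K] {S : Finset ℕ} {χ : ∀ j : ℕ, (ZMod j)ˣ →* Multiplicative (ZMod p)} {ε : K}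
    (N : Pool.Agent.TH831.OE.NTo (Tame p S) (fun l => (((l - 1) / p : ℕ) : K)) (fun l j => linking K j l (χ j))
      (fun j => linking K j p (χ j)) ε) : NoTuple K p S χ ε := by
  intro C T hC hT hrel ⟨v, hv0, hv1, hv2⟩
  obtain ⟨w, hw0, hw1, hw2⟩ := N C T hC hT hrel ⟨v, hv0, (eigen_iff hv0).1 hv1, (eigen_iff hv0).1 hv2⟩
  exact ⟨w, hw0, (eigen_iff hw0).2 hw1, fun l hl => ⟨0, by rw [hw2 l hl, zero_smul]⟩⟩

theorem good_of (hp2 : p ≠ 2) (χ : ∀ j : ℕ, (ZMod j)ˣ →* Multiplicative (ZMod p)) (hχ : Kr χ) (k l q : ℕ)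
    (hkl : k ≠ l) (hkq : k ≠ q) (hlq : l ≠ q) (hk : lv p k ≠ 0) (hl : lv p l ≠ 0)
    (hD : lk χ l k / lv p l * lk χ p l ≠ lk χ k l / lv p k * lk χ p k)
    (hG : Gu (lv p k) (lv p l) (lk χ k l) (lk χ l k) (lk χ p k) (lk χ p l) (vec χ ![p, k, l] q)
      ![lv p q, lk χ q k, lk χ q l]) : OrdinaryReducible p {k, l, q} := by
  intro S hS hT A _ _ _ _ _ hA hfin e he h0 h0' ρ hρ hur hres hU P hP hpP hloc
  have hp : p.Prime := Fact.out
  have hpm : (p : A) ∈ maximalIdeal A := Ideal.pow_le_self (by omega) h0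
  have hchar : CharP (ResidueField A) p := Pool.Agent.TH831.OE.charP_res hp hpm
  set φ := ZMod.castHom (dvd_refl p) (ResidueField A) with hφ
  have hinj : Function.Injective φ := φ.injective
  have two : (2 : ResidueField A) ≠ 0 := by
    have h2 : (2 : ZMod p) ≠ 0 := by
      intro h
      have h' : ((2 : ℕ) : ZMod p) = 0 := by exact_mod_cast h
      rw [ZMod.natCast_eq_zero_iff] at h'
      have := Nat.le_of_dvd (by norm_num) h'
      have := hp.two_le
      omega
    intro h
    apply h2
    apply hinj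
    rw [map_zero, ← h]
    exact map_ofNat φ 2
  have eu : (fun l : ℕ => (((l - 1) / p : ℕ) : ResidueField A)) = fun l => φ (lv p l) := by
    funext a
    unfold lv
    rw [map_natCast]
  have el : (fun l j : ℕ => linking (ResidueField A) j l (χ j)) = fun l j => φ (lk χ l j) := by
    funext a j
    exact linking_lk χ j a
  have eb : (fun j : ℕ => linking (ResidueField A) j p (χ j)) = fun j => φ (lk χ p j) := by
    funext j
    exact linking_lk χ j p
  obtain ⟨g1, g2, g3, g4, g5, g6, g7, g8, g9, g10⟩ := hG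
  change lk χ p q ≠ 0 at g1
  change lv p q ≠ 0 at g2
  change lk χ q k ≠ 0 at g3
  change lk χ q l ≠ 0 at g4
  change lk χ k l / lv p k ≠ lk χ q l / lv p q at g5
  change lk χ l k / lv p l ≠ lk χ q k / lv p q at g6
  change lk χ k q / lv p k ≠ lk χ l q / lv p l at g7
  change lk χ q k / lv p q * lk χ p q ≠ lk χ k q / lv p k * lk χ p k at g8
  change lk χ q l / lv p q * lk χ p q ≠ lk χ l q / lv p l * lk χ p l at g9
  change QQ (lk χ k l / lv p k) (lk χ k q / lv p k) (lk χ l k / lv p l) (lk χ l q / lv p l) (lk χ q k / lv p q)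
    (lk χ q l / lv p q) (lk χ p k) (lk χ p l) (lk χ p q) ≠ 0 at g10
  have tr : ∀ {x y : ZMod p}, x ≠ y → φ x ≠ φ y := fun h h' => h (hinj h')
  have tr0 : ∀ {x : ZMod p}, x ≠ 0 → φ x ≠ 0 := fun h h' => h (hinj (by rw [h', map_zero]))
  have hsub : Tame p S ⊆ {k, l, q} := by
    intro a ha
    have := hT a (mem_filter.1 ha).1 (mem_filter.1 ha).2
    simpa using this
  have hN : ∀ ε : ResidueField A, ε = 0 ∨ ε = 1 → NoTuple (ResidueField A) p S χ ε := by
    intro ε hε
    apply notuple
    rw [eu, el, eb]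
    refine nto_mono hsub (nto_three two hkl hkq hlq (tr0 hk) (tr0 hl) (tr0 g2) ?_ ?_ ?_ ?_ ?_ ?_ ?_ ε hε)
    · rw [← map_div₀, ← map_div₀]
      exact tr g5
    · rw [← map_div₀, ← map_div₀]
      exact tr g6
    · rw [← map_div₀, ← map_div₀]
      exact tr g7
    · rw [← map_div₀, ← map_div₀, ← map_mul, ← map_mul]
      exact tr hD
    · rw [← map_div₀, ← map_div₀, ← map_mul, ← map_mul]
      exact tr g8
    · rw [← map_div₀, ← map_div₀, ← map_mul, ← map_mul]
      exact tr g9
    · rw [← map_div₀, ← map_div₀, ← map_div₀, ← map_div₀, ← map_div₀, ← map_div₀, ← map_QQ]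
      exact tr0 g10
  have hP' : NoPair (ResidueField A) p S χ := by
    have h : NP (Tame p S) (fun l => (((l - 1) / p : ℕ) : ResidueField A)) (fun l j => linking (ResidueField A) j l (χ j))
        (fun j => linking (ResidueField A) j p (χ j)) := by
      rw [eu, el, eb]
      refine np_mono hsub (np_three hkl hkq hlq (tr0 hk) (tr0 hl) (tr0 g2) ?_ ?_ ?_ ?_ ?_ ?_)
      · rw [← map_mul, ← map_mul]
        refine tr fun h => g5 ?_
        field_simp
        linear_combination h
      · rw [← map_mul, ← map_mul]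
        refine tr fun h => g6 ?_
        field_simp
        linear_combination h
      · rw [← map_mul, ← map_mul]
        refine tr fun h => g7 ?_
        field_simp
        linear_combination h
      · by_cases h : lk χ p k = 0
        · right
          refine ⟨tr0 fun h' => hD ?_, tr0 g3⟩
          rw [h, h', zero_div, zero_mul, mul_zero]
        · exact Or.inl (tr0 h)
      · by_cases h : lk χ p l = 0
        · right
          refine ⟨tr0 fun h' => hD ?_, tr0 g4⟩
          rw [h, h', zero_div, zero_mul, mul_zero]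
        · exact Or.inl (tr0 h)
      · exact Or.inl (tr0 g1)
    exact h
  exact OrdinaryScalar.result p hp2 S hS A hA hfin e he h0 h0' χ
    (fun a ha => (hχ a (hS a (mem_filter.1 ha).1).1 (mem_filter.1 ha).2).1)
    (Or.inr ⟨hP', hN 1 (Or.inr rfl), Or.inr (hN 0 (Or.inl rfl))⟩) ρ hρ hur hres hU P hP hpP hloc

end

open Classical in
/-- **Ordinary representations with scalar reduction, three tame primes.** -/
theorem result (p : ℕ) [Fact p.Prime] (hp7 : 7 ≤ p) (k l : ℕ) (hk : k.Prime) (hl : l.Prime)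
    (hpk : p ∣ k - 1) (hpl : p ∣ l - 1) (hpk2 : ¬ p ^ 2 ∣ k - 1) (hpl2 : ¬ p ^ 2 ∣ l - 1) (hkl : k ≠ l)
    (χ : ∀ j : ℕ, (ZMod j)ˣ →* Multiplicative (ZMod p)) (hχ : ∀ j ∈ ({k, l} : Set ℕ), ∃ x, χ j x ≠ 1)
    (hD : (((k - 1) / p : ℕ) : ZMod p) * linking (ZMod p) k l (χ k) * linking (ZMod p) l p (χ l) ≠
      (((l - 1) / p : ℕ) : ZMod p) * linking (ZMod p) l k (χ l) * linking (ZMod p) k p (χ k)) (ε : ℝ) (hε : 0 < ε) :
    ∀ᶠ x : ℕ in atTop, (((p : ℝ) - 1) ^ 2 * ((p : ℝ) - 2) * ((p : ℝ) - 3) * ((p : ℝ) - 5) / (p : ℝ) ^ 5 - ε) *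
      ((Pr p x).card : ℝ) ≤
      (((Pr p x).filter fun q => q ∉ ({k, l} : Set ℕ) ∧ ¬ p ^ 2 ∣ q - 1 ∧ OrdinaryReducible p {k, l, q}).card : ℝ) := by
  have hp : p.Prime := Fact.out
  obtain ⟨χ', hχ', heq⟩ := extend χ {k, l} (fun j hj _ _ => hχ j hj)
  have hmem : ∀ j, j = k ∨ j = l → χ' j = χ j := fun j hj => heq j (by simpa using hj)
  have uk : lv p k ≠ 0 := lv_ne_zero hpk hpk2
  have ul : lv p l ≠ 0 := lv_ne_zero hpl hpl2
  have hD' : lv p k * lk χ' l k * lk χ' p l ≠ lv p l * lk χ' k l * lk χ' p k := by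
    rw [lk_of_eq' (hmem k (by simp)), lk_of_eq' (hmem l (by simp)), lk_of_eq' (hmem l (by simp)), lk_of_eq' (hmem k (by simp))]
    exact hD
  have hD3 : lk χ' l k / lv p l * lk χ' p l ≠ lk χ' k l / lv p k * lk χ' p k := by
    intro h
    apply hD'
    field_simp at h
    linear_combination h
  have hne : lk χ' l k ≠ 0 ∨ lk χ' k l ≠ 0 := by
    by_contra hcon
    push Not at hcon
    apply hD'
    rw [hcon.1, hcon.2]
    ring
  have hd := dens3 (p := p) (by omega) χ' hχ' k l hk hl hpk hpl hkl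
    (Gu (lv p k) (lv p l) (lk χ' k l) (lk χ' l k) (lk χ' p k) (lk χ' p l))
    (fun w s h hw => h.1 (by rw [hw]; rfl)) (fun w s c hc h => Gu_smul c hc h) (d3 p) (d3_le (by omega))
    (gt_count (by omega) uk ul hne) ε hε
  filter_upwards [hd] with x hx
  rw [Pr_eq]
  refine le_trans hx (Nat.cast_le.2 (card_le_card ?_))
  intro q hq
  rw [mem_filter] at hq ⊢
  obtain ⟨h1, h2, h3, h4⟩ := hq
  refine ⟨h1, by simp [h2, h3], ?_, good_of (by omega) χ' hχ' k l q hkl (Ne.symm h2) (Ne.symm h3) uk ul hD3 h4⟩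
  intro h
  have h5 : lv p q = 0 := by
    unfold lv
    rw [ZMod.natCast_eq_zero_iff]
    obtain ⟨m, hm⟩ := h
    refine ⟨m, ?_⟩
    rw [hm, pow_two, mul_assoc, Nat.mul_div_cancel_left _ hp.pos]
  exact h4.2.1 h5

end Pool.Agent.Results.MP_b583a4_nt.OrdinaryThreePrimes
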